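import Pool.Agent.LE.StmtsH

/-!
# Squad LCH, row WTQ: a vector with little mass in `[a - r, a + r]`
-/

set_option autoImplicit false

open MeasureTheory ProbabilityTheory Function Filter

open scoped ENNReal BigOperators InnerProductSpace Topology

noncomputable section

namespace Pool.Agent.LE.CH.H25

open Pool.Agent.Anderson Pool.Agent.Loc Pool.Agent.Mob Pool.Agent.Helper54.Bal

variable {d : ℕ}

/-- the truncation of `u` to the cube, as a vector -/
def tr (n : ℕ) (u : L2 d) : L2 d := ∑ x ∈ box (0 : Site d) n, lp.single 2 x (u x)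

theorem tr_apply (n : ℕ) (u : L2 d) (x : Site d) : tr n u x = cut n u x := by
  unfold tr cut
  rw [coe_sum_apply]
  have h1 : ∀ y ∈ box (0 : Site d) n, (lp.single 2 y (u y) : L2 d) x =
      if x = y then u y else 0 := by
    intro y _
    rw [lp.single_apply, Pi.single_apply]
  rw [Finset.sum_congr rfl h1, Finset.sum_ite_eq]

theorem tendsto_tr (u : L2 d) : Tendsto (fun n : ℕ => tr n u) atTop (𝓝 u) := by
  have h := lp.hasSum_single (E := fun _ : Site d => ℂ) (p := 2) (by norm_num) u
  exact h.comp tendsto_box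

theorem tendsto_sq (u : L2 d) :
    Tendsto (fun n : ℕ => ∑ x ∈ box (0 : Site d) n, ‖u x‖ ^ 2) atTop (𝓝 (‖u‖ ^ 2)) := by
  rw [L2.norm_sq]
  exact (L2.summable_sq u).hasSum.comp tendsto_box

theorem sum_le (u : L2 d) (n : ℕ) : ∑ x ∈ box (0 : Site d) n, ‖u x‖ ^ 2 ≤ ‖u‖ ^ 2 := by
  rw [L2.norm_sq]
  exact (L2.summable_sq u).sum_le_tsum _ fun x _ => by positivity

/-- the Poisson kernel -/
def ker (η t E : ℝ) : ℝ := η / Real.pi / ((E - t) ^ 2 + η ^ 2)

theorem den_pos {η : ℝ} (hη : 0 < η) (t E : ℝ) : 0 < (E - t) ^ 2 + η ^ 2 := by positivity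

theorem continuous_ker {η : ℝ} (hη : 0 < η) (t : ℝ) : Continuous (ker η t) := by
  unfold ker
  refine Continuous.div continuous_const (by fun_prop) fun E => (den_pos hη t E).ne'

theorem norm_zz_sub (η t E : ℝ) : ‖zz η E - (t : ℂ)‖ ^ 2 = (E - t) ^ 2 + η ^ 2 := by
  have h : zz η E - (t : ℂ) = zz η (E - t) := by
    unfold zz
    push_cast
    ring
  rw [h, normSq_zz]

theorem wtq (fvw : FvwStmt) (fvg : FvgStmt) (pti : PtiStmt) : WtqStmt := by
  intro d V a r η u w hr hη hη1 hw
  set J : Set ℝ := Set.Icc (a - r) (a + r) with hJ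
  -- the functions in finite volume
  let F : ℕ → ℝ → ℝ := fun n E => ∑ x ∈ box (0 : Site d) n, ‖fv V n (zz η E) u x‖ ^ 2
  let A : ℕ → ℝ := fun n => ∑ x ∈ box (0 : Site d) n,
    ‖lap (cut n u) x + (V x : ℂ) * u x - (a : ℂ) * u x‖ ^ 2
  let S : ℕ → ℝ := fun n => ∑ x ∈ box (0 : Site d) n, ‖u x‖ ^ 2
  have hπ : 0 < η / Real.pi := div_pos hη Real.pi_pos
  have him : ∀ E : ℝ, (zz η E).im ≠ 0 := fun E => by simpa using hη.ne'
  have key : ∀ n : ℕ, (∀ E, F n E ≤ ‖u‖ ^ 2 / η ^ 2) ∧ Continuous (F n) ∧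
      r ^ 2 * S n ≤ A n + (r ^ 2 + 3 * r) * √η * S n + r ^ 2 * ∫ E in J, η / Real.pi * F n E := by
    intro n
    obtain ⟨p, lam, hp, hps, hF, hA⟩ := fvw d n V u
    have hF' : ∀ E, F n E = ∑ j, p j / ((E - lam j) ^ 2 + η ^ 2) := by
      intro E
      change ∑ x ∈ box (0 : Site d) n, ‖fv V n (zz η E) u x‖ ^ 2 = _
      rw [hF _ (him E)]
      exact Finset.sum_congr rfl fun j _ => by rw [norm_zz_sub]
    refine ⟨fun E => ?_, ?_, ?_⟩
    · rw [hF', div_eq_mul_inv]
      have h1 : ∀ j ∈ Finset.univ, p j / ((E - lam j) ^ 2 + η ^ 2) ≤ p j * (η ^ 2)⁻¹ := by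
        intro j _
        rw [div_eq_mul_inv]
        refine mul_le_mul_of_nonneg_left ?_ (hp j)
        apply inv_anti₀ (by positivity)
        nlinarith [sq_nonneg (E - lam j)]
      refine (Finset.sum_le_sum h1).trans ?_
      rw [← Finset.sum_mul, hps]
      exact mul_le_mul_of_nonneg_right (sum_le u n) (by positivity)
    · have h1 : F n = fun E => ∑ j, p j / ((E - lam j) ^ 2 + η ^ 2) := funext hF'
      rw [h1]
      refine continuous_finsetSum _ fun j _ => ?_
      exact Continuous.div continuous_const (by fun_prop) fun E => (den_pos hη _ E).ne'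
    · have h1 : ∀ j, r ^ 2 * p j ≤ p j * (lam j - a) ^ 2 + (r ^ 2 + 3 * r) * √η * p j +
          r ^ 2 * (p j * ∫ E in J, ker η (lam j) E) := by
        intro j
        have h2 := mul_le_mul_of_nonneg_left (pti a r η (lam j) hr hη hη1) (hp j)
        calc r ^ 2 * p j = p j * r ^ 2 := mul_comm _ _
          _ ≤ _ := h2
          _ = _ := by
            change _ = p j * (lam j - a) ^ 2 + (r ^ 2 + 3 * r) * √η * p j +
              r ^ 2 * (p j * ∫ E in Set.Icc (a - r) (a + r),
                η / Real.pi / ((E - lam j) ^ 2 + η ^ 2))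
            ring
      have h2 : ∫ E in J, η / Real.pi * F n E = ∑ j, p j * ∫ E in J, ker η (lam j) E := by
        have h3 : ∀ E, η / Real.pi * F n E = ∑ j, p j * ker η (lam j) E := by
          intro E
          rw [hF', Finset.mul_sum]
          refine Finset.sum_congr rfl fun j _ => ?_
          unfold ker
          ring
        simp_rw [h3]
        rw [integral_finsetSum]
        · refine Finset.sum_congr rfl fun j _ => ?_
          rw [integral_const_mul]
        · intro j _
          exact ((continuous_ker hη (lam j)).const_mul (p j) |>.continuousOn).integrableOn_compact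
            isCompact_Icc
      have h3 := Finset.sum_le_sum fun j (_ : j ∈ Finset.univ) => h1 j
      rw [Finset.sum_add_distrib, Finset.sum_add_distrib, ← Finset.mul_sum, ← Finset.mul_sum,
        ← Finset.mul_sum, ← h2, ← hA a, hps] at h3
      exact h3
  -- the limits
  have hS : Tendsto S atTop (𝓝 (‖u‖ ^ 2)) := tendsto_sq u
  have hAB : ∀ n, A n ≤ ‖Lap d (tr n u) - Lap d u + (w - (a : ℂ) • u)‖ ^ 2 := by
    intro n
    refine le_trans (le_of_eq ?_) (sum_le _ n)
    refine Finset.sum_congr rfl fun x _ => ?_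
    congr 2
    have h1 : lap (cut n u) x = Lap d (tr n u) x := by
      rw [Lap_apply]
      congr 1
      funext y
      exact (tr_apply n u y).symm
    rw [h1]
    simp only [lp.coeFn_add, lp.coeFn_sub, lp.coeFn_smul, Pi.add_apply, Pi.sub_apply,
      Pi.smul_apply, smul_eq_mul]
    rw [hw x, Lap_apply u]
    ring
  have hB : Tendsto (fun n : ℕ => ‖Lap d (tr n u) - Lap d u + (w - (a : ℂ) • u)‖ ^ 2) atTop
      (𝓝 (‖w - (a : ℂ) • u‖ ^ 2)) := by
    have h1 : Tendsto (fun n : ℕ => Lap d (tr n u) - Lap d u + (w - (a : ℂ) • u)) atTop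
        (𝓝 (Lap d u - Lap d u + (w - (a : ℂ) • u))) :=
      ((((Lap d).continuous.tendsto u).comp (tendsto_tr u)).sub_const _).add_const _
    rw [sub_self, zero_add] at h1
    exact (h1.norm).pow 2
  have hcG : Continuous fun E : ℝ => ‖G V (zz η E) u‖ ^ 2 := by
    have h1 := continuous_G (d := d) hη.ne'
    have h2 : Continuous fun E : ℝ => ((V, E, u) : (Site d → ℝ) × ℝ × L2 d) := by fun_prop
    exact ((h1.comp h2).norm).pow 2
  have hI : Tendsto (fun n => ∫ E in J, η / Real.pi * F n E) atTop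
      (𝓝 (∫ E in J, η / Real.pi * ‖G V (zz η E) u‖ ^ 2)) := by
    refine tendsto_integral_of_dominated_convergence (fun _ => η / Real.pi * (‖u‖ ^ 2 / η ^ 2))
      ?_ ?_ ?_ ?_
    · intro n
      exact ((key n).2.1.const_mul _).aestronglyMeasurable
    · exact (continuous_const.continuousOn).integrableOn_compact isCompact_Icc
    · intro n
      refine Filter.Eventually.of_forall fun E => ?_
      have h1 : 0 ≤ F n E := Finset.sum_nonneg fun x _ => by positivity
      rw [Real.norm_eq_abs, abs_of_nonneg (mul_nonneg hπ.le h1)]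
      exact mul_le_mul_of_nonneg_left ((key n).1 E) hπ.le
    · refine Filter.Eventually.of_forall fun E => ?_
      exact ((fvg d V (zz η E) u (him E)).2.1).const_mul _
  set I : ℝ := ∫ E in J, η / Real.pi * ‖G V (zz η E) u‖ ^ 2 with hIdef
  have hlim : r ^ 2 * ‖u‖ ^ 2 ≤ ‖w - (a : ℂ) • u‖ ^ 2 + (r ^ 2 + 3 * r) * √η * ‖u‖ ^ 2 +
      r ^ 2 * I := by
    refine le_of_tendsto_of_tendsto' (hS.const_mul (r ^ 2))
      ((hB.add (hS.const_mul ((r ^ 2 + 3 * r) * √η))).add (hI.const_mul (r ^ 2))) fun n => ?_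
    have h1 := (key n).2.2
    have h2 := hAB n
    linarith
  have hwt : wt V J η u = ENNReal.ofReal I := by
    unfold wt
    rw [hIdef, ofReal_integral_eq_lintegral_ofReal]
    · exact ((hcG.const_mul (η / Real.pi)).continuousOn).integrableOn_compact isCompact_Icc
    · refine Filter.Eventually.of_forall fun E => ?_
      exact mul_nonneg hπ.le (by positivity)
  rw [hwt, ← ENNReal.ofReal_mul (by positivity), ← ENNReal.ofReal_add (by positivity) ?_]
  · exact ENNReal.ofReal_le_ofReal hlim
  · refine mul_nonneg (by positivity) ?_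
    exact integral_nonneg fun E => mul_nonneg hπ.le (by positivity)

end Pool.Agent.LE.CH.H25
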